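import Pool.Agent.Work.MP_ea58a7_an.Hedge.Link
import Pool.Agent.Work.MP_ea58a7_an.Hedge.Ex

set_option autoImplicit false

namespace Pool.Agent.Results.MP_ea58a7_an.Threshold

open Pool.Agent.Work.MP_ea58a7_an.Hedge

/-- `f` is continuous on `[0,1]`, has `0 ≤ f 0`, `f 1 ≤ 2`, and all its difference quotients on
`[0,1]` are at least `β`. The maps `x ↦ β x + α` with `0 ≤ α`, `α + β ≤ 2` are examples. -/
def Exp (β : ℝ) (f : ℝ → ℝ) : Prop :=
  ContinuousOn f (Set.Icc 0 1) ∧ 0 ≤ f 0 ∧ f 1 ≤ 2 ∧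
    ∀ x y : ℝ, 0 ≤ x → x ≤ y → y ≤ 1 → β * (y - x) ≤ f y - f x

/-- The map `x ↦ f x (mod 1)` of the half-open interval `[0,1)` to itself. -/
noncomputable def T (f : ℝ → ℝ) (x : Set.Ico (0 : ℝ) 1) : Set.Ico (0 : ℝ) 1 :=
  ⟨Int.fract (f (x : ℝ)), Int.fract_nonneg _, Int.fract_lt_one _⟩

/-- Topological transitivity of `T f` on `[0,1)`. -/
def IsTrans (f : ℝ → ℝ) : Prop :=
  ∀ U V : Set (Set.Ico (0 : ℝ) 1), IsOpen U → IsOpen V → U.Nonempty → V.Nonempty →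
    ∃ k : ℕ, ((T f)^[k] '' U ∩ V).Nonempty

lemma iter_val (f : ℝ → ℝ) (n : ℕ) : ∀ x : Set.Ico (0 : ℝ) 1,
    (((T f)^[n] x : Set.Ico (0 : ℝ) 1) : ℝ) = (fun y : ℝ => Int.fract (f y))^[n] (x : ℝ) := by
  induction n with
  | zero => intro x; rfl
  | succ n ih =>
    intro x
    rw [Function.iterate_succ_apply, Function.iterate_succ_apply, ih]
    rfl

lemma sys_of_not {β : ℝ} {f : ℝ → ℝ} (hβ : 1 < β) (hf : Exp β f) (hn : ¬ IsTrans f) :
    ∃ X, Sys β f X := by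
  by_contra hno
  apply hn
  intro U V hU hV hUn hVn
  obtain ⟨U', hU', rfl⟩ := isOpen_induced_iff.1 hU
  obtain ⟨V', hV', rfl⟩ := isOpen_induced_iff.1 hV
  obtain ⟨x, hx⟩ := hUn
  obtain ⟨y, hy⟩ := hVn
  by_contra hk
  apply hno
  refine exists_sys hβ hf.1 hf.2.1 hf.2.2.1 hf.2.2.2 hU' hV' hx x.2 hy y.2 ?_
  intro n z hz hz' hmem
  refine hk ⟨n, (T f)^[n] ⟨z, hz'⟩, ⟨⟨z, hz'⟩, hz, rfl⟩, ?_⟩
  show (((T f)^[n] ⟨z, hz'⟩ : Set.Ico (0 : ℝ) 1) : ℝ) ∈ V'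
  rw [iter_val]
  exact hmem

lemma not_of_gap {f : ℝ → ℝ} {η ω : ℝ} (h0 : 0 < η) (h1 : η < ω) (h2 : ω ≤ 1)
    (h : ∀ (n : ℕ) (z : ℝ), 0 ≤ z → z ≤ η →
      (fun y => Int.fract (f y))^[n] z ∉ Set.Ioo η ω) : ¬ IsTrans f := by
  intro ht
  obtain ⟨k, _, ⟨z, hz, rfl⟩, hV⟩ := ht (Subtype.val ⁻¹' Set.Iio η) (Subtype.val ⁻¹' Set.Ioo η ω)
    (isOpen_Iio.preimage continuous_subtype_val) (isOpen_Ioo.preimage continuous_subtype_val)
    ⟨⟨0, le_rfl, zero_lt_one⟩, h0⟩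
    ⟨⟨(η + ω) / 2, by linarith, by linarith⟩,
      show (η + ω) / 2 ∈ Set.Ioo η ω from ⟨by linarith, by linarith⟩⟩
  have hV' : (((T f)^[k] z : Set.Ico (0 : ℝ) 1) : ℝ) ∈ Set.Ioo η ω := hV
  rw [iter_val] at hV'
  exact h k z z.2.1 (le_of_lt hz) hV'

lemma sum_eq {β : ℝ} (hβ : 1 < β) (n : ℕ) :
    ∑ j ∈ Finset.Icc 1 n, β ^ j = β * (β ^ n - 1) / (β - 1) := by
  have hb : β - 1 ≠ 0 := by linarith
  induction n with
  | zero => simp
  | succ n ih =>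
    rw [Finset.sum_Icc_succ_top (by omega), ih]
    field_simp
    ring

/-- The exact transitivity threshold for mod one maps of slope at least `β`,
`β ^ n < 2 ≤ β ^ (n + 1)`, `n ≥ 2`. -/
theorem result (β : ℝ) (n : ℕ) (hβ : 1 < β) (hn : 2 ≤ n) (h1 : β ^ n < 2)
    (h2 : 2 ≤ β ^ (n + 1)) :
    IsLUB {v : ℝ | ∃ f : ℝ → ℝ, Exp β f ∧ ¬ IsTrans f ∧ v = max (f 0) (2 - f 1)}
      (if β ^ (n + 1) ≤ β + 1 then (β ^ (n - 1) - 1) / (β ^ n - 1)
        else 2 - β - 1 / ∑ j ∈ Finset.Icc 1 n, β ^ j) := by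
  obtain ⟨k, rfl⟩ : ∃ k, n = k + 2 := ⟨n - 2, by omega⟩
  have hb : 0 < β - 1 := by linarith
  have hβ0 : 0 < β := by linarith
  have hB1 : 0 < β ^ (k + 2) - 1 := by
    have := one_lt_pow₀ hβ (show k + 2 ≠ 0 by omega); linarith
  have en : k + 2 - 1 = k + 1 := by omega
  have eS : 1 / ∑ j ∈ Finset.Icc 1 (k + 2), β ^ j = (β - 1) / (β * (β ^ (k + 2) - 1)) := by
    rw [sum_eq hβ, one_div_div]
  rw [en, eS]
  have up : ∀ (g : ℝ → ℝ) (X : Set ℝ), Sys β g X → 2 - g 1 ≤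
      (if β ^ (k + 2 + 1) ≤ β + 1 then (β ^ (k + 1) - 1) / (β ^ (k + 2) - 1)
        else 2 - β - (β - 1) / (β * (β ^ (k + 2) - 1))) := by
    intro g X h
    obtain ⟨hA, hB⟩ := h.theta h1 h2
    split_ifs with hc
    · rw [le_div_iff₀ hB1]
      refine le_of_mul_le_mul_left ?_ hβ0
      have e : β ^ (k + 2) = β * β ^ (k + 1) := by ring
      rw [e] at hA ⊢
      linarith
    · have h3 := hB (not_le.1 hc)
      have h4 : (β - 1) / (β * (β ^ (k + 2) - 1)) ≤ g 1 - β := by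
        rw [div_le_iff₀ (by positivity)]
        linarith
      linarith
  constructor
  · rintro v ⟨f, hf, hn', rfl⟩
    obtain ⟨X, hX⟩ := sys_of_not hβ hf hn'
    refine max_le ?_ (up f X hX)
    have := up _ _ hX.mirror
    simpa using this
  · intro u hu
    split_ifs with hc
    · have hθ : 0 < (β ^ (k + 1) - 1) / (β ^ (k + 2) - 1) := by
        have := one_lt_pow₀ hβ (show k + 1 ≠ 0 by omega)
        exact div_pos (by linarith) hB1
      refine le_of_forall_pos_le_add (fun ε hε => ?_)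
      have hp : 0 < β * (β - 1) := by positivity
      obtain ⟨η, hη0, hη1, hη2, hη3⟩ : ∃ η : ℝ, 0 < η ∧ η * (β + 1) < (β - 1) / β ∧
          β * (β - 1) * η ≤ (β ^ (k + 1) - 1) / (β ^ (k + 2) - 1) ∧ β * (β - 1) * η ≤ ε := by
        refine ⟨min ((β - 1) / β / (β + 1) / 2)
          (min ((β ^ (k + 1) - 1) / (β ^ (k + 2) - 1)) ε / (β * (β - 1))), ?_, ?_, ?_, ?_⟩
        · exact lt_min (by positivity) (div_pos (lt_min hθ hε) hp)
        · rw [← lt_div_iff₀ (by positivity)]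
          exact lt_of_le_of_lt (min_le_left _ _) (half_lt_self (by positivity))
        · rw [mul_comm, ← le_div_iff₀ hp]
          exact (min_le_right _ _).trans (div_le_div_of_nonneg_right (min_le_left _ _) hp.le)
        · rw [mul_comm, ← le_div_iff₀ hp]
          exact (min_le_right _ _).trans (div_le_div_of_nonneg_right (min_le_right _ _) hp.le)
      obtain ⟨f, ω, k1, k2, k3, k4, k5, k6, k7, k8⟩ := example_A hβ hc hη0 hη1 hη2
      have := hu ⟨f, ⟨k3, k4, k5, k7⟩, not_of_gap hη0 k1 k2 k8, rfl⟩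
      have := (le_max_right _ _).trans this
      linarith
    · obtain ⟨f, η, ω, k0, k1, k2, k3, k4, k5, k6, k7, k8⟩ := example_B hβ h1
      have := hu ⟨f, ⟨k3, k4, k5, k7⟩, not_of_gap k0 k1 k2 k8, rfl⟩
      have := (le_max_right _ _).trans this
      linarith

end Pool.Agent.Results.MP_ea58a7_an.Threshold
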