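import Pool.Agent.Work.MP_ea58a7_an.Main

set_option autoImplicit false

namespace Pool.Agent.Results.MP_ea58a7_an.Transitive

/-- The map `x ↦ β x + α (mod 1)` of the half-open interval `[0,1)` to itself. -/
noncomputable def T (α β : ℝ) (x : Set.Ico (0 : ℝ) 1) : Set.Ico (0 : ℝ) 1 :=
  ⟨Int.fract (β * (x : ℝ) + α), Int.fract_nonneg _, Int.fract_lt_one _⟩

/-- For every `(α, β)` in the triangle `1 < β`, `0 ≤ α`, `α + β ≤ 2` with `α ≤ 1 - 1/β` or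
`α ≥ 1 + 1/β - β`, the map `x ↦ β x + α (mod 1)` on `[0,1)` is topologically transitive.
(The restriction `β ≤ √2` of the problem is not needed.) -/
theorem result (α β : ℝ) (hβ : 1 < β) (hα : 0 ≤ α) (hαβ : α + β ≤ 2)
    (hC : α ≤ 1 - 1 / β ∨ 1 + 1 / β - β ≤ α) :
    ∀ U V : Set (Set.Ico (0 : ℝ) 1), IsOpen U → IsOpen V → U.Nonempty → V.Nonempty →
      ∃ n : ℕ, ((T α β)^[n] '' U ∩ V).Nonempty := by
  intro U V hU hV hUn hVn
  obtain ⟨U', hU', rfl⟩ := isOpen_induced_iff.1 hU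
  obtain ⟨V', hV', rfl⟩ := isOpen_induced_iff.1 hV
  have hit : ∀ (n : ℕ) (x : Set.Ico (0 : ℝ) 1),
      (((T α β)^[n] x : Set.Ico (0 : ℝ) 1) : ℝ) =
        (fun y : ℝ => Int.fract (β * y + α))^[n] (x : ℝ) := by
    intro n
    induction n with
    | zero => intro x; rfl
    | succ n ih =>
      intro x
      rw [Function.iterate_succ_apply, Function.iterate_succ_apply, ih]
      rfl
  obtain ⟨x, hx⟩ := hUn
  obtain ⟨y, hy⟩ := hVn
  obtain ⟨n, z, hz, hzV⟩ := Pool.Agent.Work.MP_ea58a7_an.transitive α β hβ hα hαβ hC U' V' hU' hV'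
    ⟨x, hx, x.2⟩ ⟨y, hy, y.2⟩
  refine ⟨n, (T α β)^[n] ⟨z, hz.2⟩, ⟨⟨z, hz.2⟩, hz.1, rfl⟩, ?_⟩
  show (((T α β)^[n] ⟨z, hz.2⟩ : Set.Ico (0 : ℝ) 1) : ℝ) ∈ V'
  rw [hit]
  exact hzV

end Pool.Agent.Results.MP_ea58a7_an.Transitive
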